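import Mathlib

/-!
# Partitions of a connected graph into few induced trees
-/

open Finset

namespace Pool.Agent.X62.TP

variable {V : Type}

/-- A graph given by a parent function with decreasing rank is a tree. -/
theorem isTree_of_parent {G : SimpleGraph V} (r : V) (par : V → V) (rk : V → ℕ)
    (hrk : ∀ v, v ≠ r → rk (par v) < rk v)
    (hadj : ∀ u v, G.Adj u v ↔ (u ≠ r ∧ par u = v) ∨ (v ≠ r ∧ par v = u)) : G.IsTree := by
  classical
  constructor
  · rw [SimpleGraph.connected_iff]
    have key : ∀ n v, rk v ≤ n → G.Reachable v r := by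
      intro n
      induction n with
      | zero =>
        intro v hv
        by_cases h : v = r
        · rw [h]
        · have := hrk v h
          omega
      | succ n ih =>
        intro v hv
        by_cases h : v = r
        · rw [h]
        · have h1 := hrk v h
          have h2 : G.Adj v (par v) := (hadj _ _).2 (Or.inl ⟨h, rfl⟩)
          exact h2.reachable.trans (ih _ (by omega))
    exact ⟨fun a b => (key _ a le_rfl).trans (key _ b le_rfl).symm, ⟨r⟩⟩
  · intro v c hc
    obtain ⟨w, hw, hmax⟩ := Finset.exists_max_image c.support.toFinset rk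
      ⟨v, by rw [List.mem_toFinset]; exact c.start_mem_support⟩
    simp only [List.mem_toFinset] at hw hmax
    set c' := c.rotate w hw with hc'
    have hcyc : c'.IsCycle := (SimpleGraph.Walk.isCycle_rotate hw).2 hc
    have hsup : ∀ x, x ∈ c'.support ↔ x ∈ c.support := fun x =>
      SimpleGraph.Walk.mem_support_rotate_iff c w hw
    have hnb : ∀ x ∈ c'.support, G.Adj w x → x = par w := by
      intro x hx hwx
      rcases (hadj _ _).1 hwx with ⟨_, h⟩ | ⟨h1, h2⟩
      · exact h.symm
      · have h3 := hrk x h1
        have h4 := hmax x ((hsup x).1 hx)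
        rw [h2] at h3
        omega
    have hlen := hcyc.three_le_length
    have h1 : c'.snd = par w := by
      apply hnb _ (c'.getVert_mem_support 1)
      have := c'.adj_getVert_succ (i := 0) (by omega)
      rwa [SimpleGraph.Walk.getVert_zero] at this
    have h2 : c'.penultimate = par w := by
      apply hnb _ (c'.getVert_mem_support _)
      have := c'.adj_getVert_succ (i := c'.length - 1) (by omega)
      rw [show c'.length - 1 + 1 = c'.length by omega, SimpleGraph.Walk.getVert_length] at this
      exact this.symm
    exact hcyc.snd_ne_penultimate (h1.trans h2.symm)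

/-- An induced star is a tree. -/
theorem star_isTree (G : SimpleGraph V) (p : V) (X : Set V) (hp : p ∉ X)
    (hadj : ∀ x ∈ X, G.Adj p x) (hind : ∀ x ∈ X, ∀ y ∈ X, ¬ G.Adj x y) :
    (G.induce (insert p X)).IsTree := by
  classical
  apply isTree_of_parent (⟨p, Set.mem_insert _ _⟩ : (insert p X : Set V))
    (fun _ => ⟨p, Set.mem_insert _ _⟩) (fun v => if v.1 = p then 0 else 1)
  · intro v hv
    have : v.1 ≠ p := fun h => hv (Subtype.ext h)
    simp [this]
  · rintro ⟨u, hu⟩ ⟨v, hv⟩
    simp only [SimpleGraph.comap_adj, Function.Embedding.subtype_apply, ne_eq, Subtype.mk.injEq]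
    rcases hu with rfl | hu
    · rcases hv with rfl | hv
      · simp
      · have h1 := hadj v hv
        have h2 : v ≠ u := fun h => hp (h ▸ hv)
        simp [h1, h2]
    · have h2 : u ≠ p := fun h => hp (h ▸ hu)
      rcases hv with rfl | hv
      · have h1 := (hadj u hu).symm
        simp [h1, h2]
      · have h3 : v ≠ p := fun h => hp (h ▸ hv)
        have h4 := hind u hu v hv
        simp [h4, h2, h3, Ne.symm h2, Ne.symm h3]

/-- A partition of `S` into sets inducing trees. -/
def TreePart (G : SimpleGraph V) (S : Finset V) (P : Finset (Finset V)) : Prop :=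
  (∀ A ∈ P, A ⊆ S ∧ (G.induce (A : Set V)).IsTree) ∧
  (∀ A ∈ P, ∀ B ∈ P, A ≠ B → Disjoint A B) ∧ ∀ v ∈ S, ∃ A ∈ P, v ∈ A

/-- The reduction step. -/
theorem exists_step [DecidableEq V] (G : SimpleGraph V) (S : Finset V)
    (hS : (G.induce (S : Set V)).Connected) (h2 : 2 ≤ S.card) :
    ∃ R : Finset V, R ⊆ S ∧ 2 ≤ R.card ∧ (G.induce (R : Set V)).IsTree ∧
      (S \ R = ∅ ∨ (G.induce ((S \ R : Finset V) : Set V)).Connected) := by
  classical
  set H := G.induce (S : Set V) with hH
  -- root
  obtain ⟨v0, hv0⟩ : S.Nonempty := Finset.card_pos.1 (by omega)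
  set r : (S : Set V) := ⟨v0, hv0⟩ with hr
  set dst : V → ℕ := fun v => if h : v ∈ S then H.dist ⟨v, h⟩ r else 0 with hdst
  have hd : ∀ (v : V) (h : v ∈ S), dst v = H.dist ⟨v, h⟩ r := by
    intro v h
    simp only [hdst, dif_pos h]
  have hd0 : dst v0 = 0 := by rw [hd v0 hv0]; simp [hr]
  have hdpos : ∀ v ∈ S, v ≠ v0 → 0 < dst v := by
    intro v hv hne
    rw [hd v hv]
    apply hS.pos_dist_of_ne
    intro h
    exact hne (congrArg Subtype.val h)
  -- a neighbour closer to the root
  have hpar : ∀ v ∈ S, v ≠ v0 → ∃ w ∈ S, G.Adj v w ∧ dst w + 1 = dst v := by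
    intro v hv hne
    obtain ⟨q, hq⟩ := hS.exists_walk_length_eq_dist ⟨v, hv⟩ r
    obtain ⟨w, h, q1, hq1⟩ := q.exists_eq_cons_of_ne (fun h => hne (congrArg Subtype.val h))
    have hw : w.1 ∈ S := w.2
    refine ⟨w.1, hw, h, ?_⟩
    rw [hq1, SimpleGraph.Walk.length_cons] at hq
    rw [hd v hv, hd w.1 hw, ← hq]
    have h1 : H.dist w r ≤ q1.length := SimpleGraph.dist_le q1
    obtain ⟨q', hq'⟩ := hS.exists_walk_length_eq_dist w r
    have h3 : H.dist ⟨v, hv⟩ r ≤ (SimpleGraph.Walk.cons h q').length := SimpleGraph.dist_le _
    rw [SimpleGraph.Walk.length_cons] at h3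
    have h4 : H.dist ⟨w.1, hw⟩ r = H.dist w r := rfl
    omega
  -- connectivity criterion
  have hconn : ∀ R : Finset V, R ⊆ S → v0 ∉ R →
      (∀ v ∈ S, v ∉ R → v ≠ v0 → ∃ w ∈ S, w ∉ R ∧ G.Adj v w ∧ dst w < dst v) →
      (G.induce ((S \ R : Finset V) : Set V)).Connected := by
    intro R hR hv0R h
    have hmem0 : v0 ∈ ((S \ R : Finset V) : Set V) := by simp [hv0, hv0R]
    have key : ∀ n (v : V) (hv : v ∈ ((S \ R : Finset V) : Set V)), dst v ≤ n →
        (G.induce ((S \ R : Finset V) : Set V)).Reachable ⟨v, hv⟩ ⟨v0, hmem0⟩ := by
      intro n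
      induction n with
      | zero =>
        intro v hv hn
        by_cases hvv : v = v0
        · subst hvv; exact SimpleGraph.Reachable.refl _
        · have hv' : v ∈ S ∧ v ∉ R := by simpa using hv
          have := hdpos v hv'.1 hvv
          omega
      | succ n ih =>
        intro v hv hn
        by_cases hvv : v = v0
        · subst hvv; exact SimpleGraph.Reachable.refl _
        · have hv' : v ∈ S ∧ v ∉ R := by simpa using hv
          obtain ⟨w, hw, hwR, hadj, hlt⟩ := h v hv'.1 hv'.2 hvv
          have hwm : w ∈ ((S \ R : Finset V) : Set V) := by simp [hw, hwR]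
          have h1 : (G.induce ((S \ R : Finset V) : Set V)).Adj ⟨v, hv⟩ ⟨w, hwm⟩ := hadj
          exact h1.reachable.trans (ih w hwm (by omega))
    rw [SimpleGraph.connected_iff]
    exact ⟨fun a b => (key _ a.1 a.2 le_rfl).trans (key _ b.1 b.2 le_rfl).symm, ⟨⟨v0, hmem0⟩⟩⟩
  -- deepest vertex
  obtain ⟨x, hx, hmax⟩ := Finset.exists_max_image S dst ⟨v0, hv0⟩
  have hxne : x ≠ v0 := by
    intro h
    obtain ⟨y, hy, hyne⟩ := Finset.exists_mem_ne (by omega : 1 < S.card) v0
    have h1 := hdpos y hy hyne
    have h3 := hmax y hy
    rw [h, hd0] at h3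
    omega
  obtain ⟨p, hp, hxp, hpd⟩ := hpar x hx hxne
  set D := dst x with hD
  set X : Finset V := S.filter fun y => dst y = D ∧ G.Adj p y ∧
    ∀ w ∈ S, G.Adj y w → dst w + 1 = D → w = p with hX
  have hXm : ∀ y, y ∈ X ↔ y ∈ S ∧ dst y = D ∧ G.Adj p y ∧
      ∀ w ∈ S, G.Adj y w → dst w + 1 = D → w = p := by
    intro y; rw [hX, Finset.mem_filter]
  -- vertices of the last level which are not in `X` have a parent different from `p`
  have hother : ∀ y ∈ S, y ≠ v0 → dst y = D → y ∉ X → ∃ w ∈ S, w ≠ p ∧ G.Adj y w ∧ dst w + 1 = D := by
    intro y hy hyne hyD hyX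
    obtain ⟨w, hw, hyw, hwd⟩ := hpar y hy hyne
    by_cases hwp : w = p
    · by_contra hcon
      push Not at hcon
      apply hyX
      rw [hXm]
      refine ⟨hy, hyD, by rw [← hwp]; exact hyw.symm, ?_⟩
      intro w' hw' hyw' hwd'
      by_contra hne
      exact hcon w' hw' hne hyw' hwd'
    · exact ⟨w, hw, hwp, hyw, by omega⟩
  have hpx : p ≠ x := fun h => by rw [h] at hpd; omega
  by_cases hXe : X = ∅
  · -- case (a)
    have hpv : p ≠ v0 := by
      intro h
      have : x ∈ X := by
        rw [hXm]
        refine ⟨hx, rfl, hxp.symm, ?_⟩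
        intro w hw _ hwd
        rw [h] at hpd ⊢
        by_contra hne
        have := hdpos w hw hne
        omega
      rw [hXe] at this
      simp at this
    refine ⟨{p, x}, ?_, ?_, ?_, Or.inr (hconn _ ?_ ?_ ?_)⟩
    · intro y hy
      simp only [mem_insert, mem_singleton] at hy
      rcases hy with rfl | rfl
      · exact hp
      · exact hx
    · rw [Finset.card_pair hpx]
    · have := star_isTree G p {x} (by simpa using hpx) (by
        intro y hy
        rw [Set.mem_singleton_iff] at hy
        rw [hy]; exact hxp.symm) (by
        intro y hy z hz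
        rw [Set.mem_singleton_iff] at hy hz
        rw [hy, hz]
        exact G.loopless.irrefl x)
      rw [Finset.coe_insert, Finset.coe_singleton]
      exact this
    · intro y hy
      simp only [mem_insert, mem_singleton] at hy
      rcases hy with rfl | rfl
      · exact hp
      · exact hx
    · simp only [mem_insert, mem_singleton, not_or]
      exact ⟨hpv.symm, hxne.symm⟩
    · intro y hy hyR hyne
      simp only [mem_insert, mem_singleton, not_or] at hyR
      by_cases hyD : dst y = D
      · obtain ⟨w, hw, hwp, hyw, hwd⟩ := hother y hy hyne hyD (by rw [hXe]; simp)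
        refine ⟨w, hw, ?_, hyw, by omega⟩
        simp only [mem_insert, mem_singleton, not_or]
        refine ⟨hwp, ?_⟩
        rintro rfl
        omega
      · obtain ⟨w, hw, hyw, hwd⟩ := hpar y hy hyne
        refine ⟨w, hw, ?_, hyw, by omega⟩
        have := hmax y hy
        simp only [mem_insert, mem_singleton, not_or]
        constructor
        · rintro rfl; omega
        · rintro rfl; omega
  · by_cases hadjX : ∃ x1 ∈ X, ∃ x2 ∈ X, G.Adj x1 x2
    · -- case (b)
      obtain ⟨x1, hx1, x2, hx2, h12⟩ := hadjX
      have hx1' := (hXm x1).1 hx1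
      have hx2' := (hXm x2).1 hx2
      have hDpos : 0 < D := by omega
      refine ⟨{x1, x2}, ?_, ?_, ?_, Or.inr (hconn _ ?_ ?_ ?_)⟩
      · intro y hy
        simp only [mem_insert, mem_singleton] at hy
        rcases hy with rfl | rfl
        · exact hx1'.1
        · exact hx2'.1
      · rw [Finset.card_pair h12.ne]
      · have := star_isTree G x1 {x2} (by simpa using h12.ne) (by
          intro y hy
          rw [Set.mem_singleton_iff] at hy
          rw [hy]; exact h12) (by
          intro y hy z hz
          rw [Set.mem_singleton_iff] at hy hz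
          rw [hy, hz]
          exact G.loopless.irrefl x2)
        rw [Finset.coe_insert, Finset.coe_singleton]
        exact this
      · intro y hy
        simp only [mem_insert, mem_singleton] at hy
        rcases hy with rfl | rfl
        · exact hx1'.1
        · exact hx2'.1
      · simp only [mem_insert, mem_singleton, not_or]
        constructor
        · rintro rfl
          omega
        · rintro rfl
          omega
      · intro y hy hyR hyne
        obtain ⟨w, hw, hyw, hwd⟩ := hpar y hy hyne
        refine ⟨w, hw, ?_, hyw, by omega⟩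
        have := hmax y hy
        simp only [mem_insert, mem_singleton, not_or]
        constructor
        · rintro rfl; omega
        · rintro rfl; omega
    · -- case (c)
      push Not at hadjX
      have hpX : p ∉ X := by
        intro h
        have := ((hXm p).1 h).2.1
        omega
      have htree : (G.induce ((insert p X : Finset V) : Set V)).IsTree := by
        have := star_isTree G p (X : Set V) (by simpa using hpX) (by
          intro y hy
          exact ((hXm y).1 hy).2.2.1) (by
          intro y hy z hz
          exact hadjX y hy z hz)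
        rw [Finset.coe_insert]
        exact this
      have hsub : insert p X ⊆ S := by
        intro y hy
        rcases Finset.mem_insert.1 hy with rfl | hy
        · exact hp
        · exact ((hXm y).1 hy).1
      have hcard : 2 ≤ (insert p X).card := by
        rw [Finset.card_insert_of_notMem hpX]
        have := Finset.card_pos.2 (Finset.nonempty_iff_ne_empty.2 hXe)
        omega
      refine ⟨insert p X, hsub, hcard, htree, ?_⟩
      by_cases hpv : p = v0
      · left
        rw [Finset.sdiff_eq_empty_iff_subset]
        intro y hy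
        by_cases hyv : y = v0
        · rw [hyv, ← hpv]; exact Finset.mem_insert_self _ _
        · apply Finset.mem_insert_of_mem
          have h1 := hdpos y hy hyv
          have h3 := hmax y hy
          rw [hpv, hd0] at hpd
          have hyD : dst y = D := by omega
          obtain ⟨w, hw, hyw, hwd⟩ := hpar y hy hyv
          have hz : ∀ w ∈ S, dst w + 1 = D → w = p := by
            intro w hw hwd
            rw [hpv]
            by_contra hne
            have := hdpos w hw hne
            omega
          rw [hXm]
          refine ⟨hy, hyD, ?_, fun w hw _ hwd => hz w hw hwd⟩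
          rw [← hz w hw (by omega)]
          exact hyw.symm
      · right
        apply hconn _ hsub
        · intro h
          rcases Finset.mem_insert.1 h with h | h
          · exact hpv h.symm
          · have := ((hXm v0).1 h).2.1
            omega
        · intro y hy hyR hyne
          simp only [mem_insert, not_or] at hyR
          by_cases hyD : dst y = D
          · obtain ⟨w, hw, hwp, hyw, hwd⟩ := hother y hy hyne hyD hyR.2
            refine ⟨w, hw, ?_, hyw, by omega⟩
            simp only [mem_insert, not_or]
            refine ⟨hwp, ?_⟩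
            intro h
            have := ((hXm w).1 h).2.1
            omega
          · obtain ⟨w, hw, hyw, hwd⟩ := hpar y hy hyne
            refine ⟨w, hw, ?_, hyw, by omega⟩
            have := hmax y hy
            simp only [mem_insert, not_or]
            constructor
            · rintro rfl; omega
            · intro h
              have := ((hXm w).1 h).2.1
              omega

/-- A connected graph with `n` vertices can be partitioned into at most `(n + 1) / 2` induced
trees. -/
theorem exists_treePart [DecidableEq V] (G : SimpleGraph V) : ∀ n (S : Finset V), S.card ≤ n →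
    (G.induce (S : Set V)).Connected → ∃ P, TreePart G S P ∧ 2 * P.card ≤ S.card + 1 := by
  intro n
  induction n with
  | zero =>
    intro S hn hS
    obtain ⟨v⟩ := hS.nonempty
    have := Finset.card_pos.2 ⟨v.1, v.2⟩
    omega
  | succ n ih =>
    intro S hn hS
    have hpos : 0 < S.card := by
      obtain ⟨v⟩ := hS.nonempty
      exact Finset.card_pos.2 ⟨v.1, v.2⟩
    by_cases h1 : S.card = 1
    · obtain ⟨v, rfl⟩ := Finset.card_eq_one.1 h1
      refine ⟨{{v}}, ⟨?_, ?_, ?_⟩, by simp⟩
      · intro A hA
        rw [Finset.mem_singleton] at hA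
        subst hA
        refine ⟨subset_rfl, ?_⟩
        rw [Finset.coe_singleton]
        have : Nonempty ({v} : Set V) := ⟨⟨v, rfl⟩⟩
        exact SimpleGraph.IsTree.of_subsingleton
      · intro A hA B hB hAB
        rw [Finset.mem_singleton] at hA hB
        exact (hAB (hA.trans hB.symm)).elim
      · intro w hw
        exact ⟨{v}, by simp, hw⟩
    · obtain ⟨R, hR, hR2, hRt, hrest⟩ := exists_step G S hS (by omega)
      have hcard : (S \ R).card + R.card = S.card := Finset.card_sdiff_add_card_eq_card hR
      obtain ⟨P, hP, hPc⟩ : ∃ P, TreePart G (S \ R) P ∧ 2 * P.card ≤ (S \ R).card + 1 ∧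
          ((S \ R) = ∅ → P = ∅) := by
        rcases hrest with h | h
        · rw [h]
          refine ⟨∅, ⟨by simp, by simp, by simp⟩, by simp, fun _ => rfl⟩
        · obtain ⟨P, h3, h4⟩ := ih (S \ R) (by omega) h
          refine ⟨P, h3, h4, ?_⟩
          intro h5
          obtain ⟨v, hv⟩ := h.nonempty
          have hv' : v ∈ S \ R := hv
          rw [h5] at hv'
          simp at hv'
      refine ⟨insert R P, ⟨?_, ?_, ?_⟩, ?_⟩
      · intro A hA
        rcases Finset.mem_insert.1 hA with rfl | hA
        · exact ⟨hR, hRt⟩
        · exact ⟨(hP.1 A hA).1.trans Finset.sdiff_subset, (hP.1 A hA).2⟩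
      · intro A hA B hB hAB
        rcases Finset.mem_insert.1 hA with hA' | hA' <;>
          rcases Finset.mem_insert.1 hB with hB' | hB'
        · exact (hAB (hA'.trans hB'.symm)).elim
        · rw [hA']
          exact Finset.disjoint_of_subset_right (hP.1 B hB').1 Finset.disjoint_sdiff
        · rw [hB']
          exact (Finset.disjoint_of_subset_right (hP.1 A hA').1 Finset.disjoint_sdiff).symm
        · exact hP.2.1 A hA' B hB' hAB
      · intro v hv
        by_cases hvR : v ∈ R
        · exact ⟨R, Finset.mem_insert_self _ _, hvR⟩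
        · obtain ⟨A, hA, hvA⟩ := hP.2.2 v (Finset.mem_sdiff.2 ⟨hv, hvR⟩)
          exact ⟨A, Finset.mem_insert_of_mem hA, hvA⟩
      · have := Finset.card_insert_le R P
        omega

end Pool.Agent.X62.TP
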